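import Mathlib

namespace Pool.Agent.Results.MP_f5b38d_co.Q1

open Finset SimpleGraph
open scoped Classical

variable {V : Type} [Fintype V]

/-- the edges of `G` -/
noncomputable def edges (G : SimpleGraph V) : Finset (Sym2 V) := univ.filter (· ∈ G.edgeSet)

/-- the degree of `v` -/
noncomputable def deg (G : SimpleGraph V) (v : V) : ℕ := (univ.filter (G.Adj v)).card

/-- `G` has an antimagic labelling -/
def Antimagic (G : SimpleGraph V) : Prop :=
  ∃ f : Sym2 V → ℕ, Set.BijOn f G.edgeSet (Set.Icc 1 (edges G).card) ∧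
    Function.Injective (fun v => ∑ e ∈ (edges G).filter (v ∈ ·), f e)

/-- `t` disjoint copies of `P_3` -/
def tP3 (t : ℕ) : SimpleGraph (Fin t × Fin 3) where
  Adj x y := x.1 = y.1 ∧ (pathGraph 3).Adj x.2 y.2
  symm := ⟨fun _ _ h => ⟨h.1.symm, h.2.symm⟩⟩
  loopless := ⟨fun _ h => h.2.ne rfl⟩

/-- number of components isomorphic to the path on `r` vertices -/
noncomputable def comps (G : SimpleGraph V) (r : ℕ) : ℕ :=
  Nat.card {c : G.ConnectedComponent // Nonempty (G.induce c.supp ≃g pathGraph r)}

/-- number of internal edges -/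
noncomputable def internal (G : SimpleGraph V) : ℕ :=
  ((edges G).filter (fun e => ∀ v ∈ e, deg G v ≠ 1)).card

/-- the bound `β(G)` -/
noncomputable def beta (G : SimpleGraph V) : ℤ :=
  ⌊min ((3 + 2 * √2) * (((edges G).card : ℝ) - Fintype.card V) +
      (1 + √2) * (((edges G).card : ℝ) + 1 / 2))
    (2 * ((edges G).card : ℝ) + 5 * ((internal G : ℝ) - comps G 3) + 1)⌋

lemma sum_ge (S : Finset ℕ) : S.card * S.card ≤ 2 * ∑ x ∈ S, x + S.card := by
  induction S using Finset.induction_on_max with
  | empty => simp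
  | insert a s h ih =>
    have h1 : a ∉ s := fun ha => lt_irrefl _ (h a ha)
    have h2 : s.card ≤ a := by
      have : s ⊆ range a := fun x hx => mem_range.mpr (h x hx)
      simpa using card_le_card this
    rw [card_insert_of_notMem h1, sum_insert h1]
    nlinarith

lemma sum_ge' {α : Type} (S : Finset α) (g : α → ℕ) (hg : Set.InjOn g S) :
    S.card * S.card ≤ 2 * ∑ x ∈ S, g x + S.card := by
  have := sum_ge (S.image g)
  rwa [card_image_of_injOn hg, sum_image hg] at this

lemma icc_sum (M : ℕ) : 2 * ∑ x ∈ Icc 1 M, x = M * (M + 1) := by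
  induction M with
  | zero => simp
  | succ M ih =>
    rw [Finset.sum_Icc_succ_top (by omega), mul_add, ih]
    ring

lemma key (G : SimpleGraph V) (h : Antimagic G) (c : V) (d N : ℕ)
    (hd : ((edges G).filter (c ∈ ·)).card = d) (hN : Fintype.card V = N + 1) :
    N * N + d * d ≤ 2 * ((edges G).card * ((edges G).card + 1)) + N + d := by
  obtain ⟨f, hf, hinj⟩ := h
  have hmem : ∀ e, e ∈ edges G ↔ e ∈ G.edgeSet := fun e => by simp [edges]
  have h1 : ∑ e ∈ edges G, f e = ∑ x ∈ Icc 1 (edges G).card, x := by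
    apply Finset.sum_nbij f
    · intro e he
      have := hf.mapsTo ((hmem e).mp he)
      simpa using this
    · intro a ha b hb hab
      exact hf.injOn ((hmem a).mp ha) ((hmem b).mp hb) hab
    · intro x hx
      obtain ⟨e, he, rfl⟩ := hf.surjOn (show x ∈ Set.Icc 1 (edges G).card by simpa using hx)
      exact ⟨e, (hmem e).mpr he, rfl⟩
    · intro e _
      rfl
  have h2 : ∑ v, ∑ e ∈ (edges G).filter (v ∈ ·), f e ≤ 2 * ∑ e ∈ edges G, f e := by
    simp only [sum_filter]
    rw [sum_comm, mul_sum]
    apply sum_le_sum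
    intro e _
    rw [← sum_filter, sum_const, smul_eq_mul]
    apply Nat.mul_le_mul_right
    induction e using Sym2.ind with
    | h a b =>
      refine le_trans (card_le_card (t := {a, b}) ?_) card_le_two
      intro v hv
      simpa using hv
  have h3 := sum_ge' (univ.erase c) _ hinj.injOn
  have h4 := sum_ge' ((edges G).filter (c ∈ ·)) f (fun a ha b hb hab =>
    hf.injOn ((hmem a).mp (mem_filter.mp ha).1) ((hmem b).mp (mem_filter.mp hb).1) hab)
  rw [card_erase_of_mem (mem_univ _), card_univ, hN, Nat.add_sub_cancel] at h3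
  rw [hd] at h4
  rw [← add_sum_erase _ _ (mem_univ c), h1, icc_sum] at h2
  omega

abbrev K : SimpleGraph (Fin 2 ⊕ Fin 200) := completeBipartiteGraph (Fin 2) (Fin 200)

lemma edgesK : (edges K).card = 400 := by
  have : edges K = univ.image (fun p : Fin 2 × Fin 200 => s(Sum.inl p.1, Sum.inr p.2)) := by
    ext e
    induction e using Sym2.ind with
    | h a b => rcases a with a | a <;> rcases b with b | b <;> simp [edges]
  rw [this, card_image_of_injective]
  · simp
  · rintro ⟨a, b⟩ ⟨c, d⟩ h
    simpa using h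

lemma degK (v : Fin 2 ⊕ Fin 200) : deg K v ≠ 1 := by
  intro h
  obtain ⟨w, hw⟩ := card_eq_one.mp h
  rcases v with v | v
  · have h0 : Sum.inr 0 ∈ univ.filter (K.Adj (Sum.inl v)) := by simp
    have h1 : Sum.inr 1 ∈ univ.filter (K.Adj (Sum.inl v)) := by simp
    rw [hw, mem_singleton] at h0 h1
    have := h0.trans h1.symm
    simp at this
  · have h0 : Sum.inl 0 ∈ univ.filter (K.Adj (Sum.inr v)) := by simp
    have h1 : Sum.inl 1 ∈ univ.filter (K.Adj (Sum.inr v)) := by simp
    rw [hw, mem_singleton] at h0 h1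
    have := h0.trans h1.symm
    simp at this

lemma reachK (v : Fin 2 ⊕ Fin 200) : K.Reachable v (Sum.inl 0) := by
  rcases v with v | v
  · exact (Adj.reachable (show K.Adj (Sum.inl v) (Sum.inr 0) by simp)).trans
      (Adj.reachable (show K.Adj (Sum.inr 0) (Sum.inl 0) by simp))
  · exact Adj.reachable (show K.Adj (Sum.inr v) (Sum.inl 0) by simp)

lemma compsK (r : ℕ) (hr : r ≠ 202) : comps K r = 0 := by
  have : IsEmpty {c : K.ConnectedComponent // Nonempty (K.induce c.supp ≃g pathGraph r)} := by
    refine ⟨fun ⟨c, ⟨e⟩⟩ => hr ?_⟩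
    have h1 : c.supp = Set.univ := by
      induction c using ConnectedComponent.ind with
      | h v =>
        ext w
        simp only [ConnectedComponent.mem_supp_iff, ConnectedComponent.eq, Set.mem_univ, iff_true]
        exact (reachK w).trans (reachK v).symm
    have h2 := Nat.card_congr e.toEquiv
    rw [h1] at h2
    simpa using h2.symm
  exact Nat.card_of_isEmpty

lemma internal_eq (G : SimpleGraph V) (h : ∀ v, deg G v ≠ 1) : internal G = (edges G).card := by
  rw [internal, filter_true_of_mem (fun e _ v _ => h v)]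

lemma hM (d t : ℕ) :
    (edges (completeBipartiteGraph (Fin 2) (Fin d) ⊕g tP3 t)).card ≤ 2 * d + t * 2 := by
  have hsub : edges (completeBipartiteGraph (Fin 2) (Fin d) ⊕g tP3 t) ⊆
      (univ.image (fun p : Fin 2 × Fin d =>
        s(Sum.inl (Sum.inl p.1), Sum.inl (Sum.inr p.2)))) ∪
      (univ.image (fun p : Fin t × Fin 2 =>
        s(Sum.inr (p.1, p.2.castSucc), Sum.inr (p.1, p.2.succ)))) := by
    intro e he
    induction e using Sym2.ind with
    | h a b =>
      have hab : (completeBipartiteGraph (Fin 2) (Fin d) ⊕g tP3 t).Adj a b := by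
        simpa [edges] using he
      rcases a with (a | a) | ⟨a, i⟩ <;> rcases b with (b | b) | ⟨b, j⟩ <;>
        simp only [sum_adj] at hab
      · simp at hab
      · simp
      · simp
      · simp at hab
      · obtain ⟨h1, h2⟩ := hab
        simp only at h1 h2
        subst h1
        rw [pathGraph_adj] at h2
        refine mem_union_right _ (mem_image.mpr ?_)
        rcases h2 with h2 | h2
        · refine ⟨(a, ⟨i, by omega⟩), mem_univ _, ?_⟩
          have : j = (⟨i, by omega⟩ : Fin 2).succ := Fin.ext (by simp; omega)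
          exact congrArg (fun x => s(Sum.inr (a, i), Sum.inr (a, x))) this.symm
        · refine ⟨(a, ⟨j, by omega⟩), mem_univ _, ?_⟩
          have : i = (⟨j, by omega⟩ : Fin 2).succ := Fin.ext (by simp; omega)
          rw [Sym2.eq_swap]
          exact congrArg (fun x => s(Sum.inr (a, x), Sum.inr (a, j))) this.symm
  refine le_trans (card_le_card hsub) (le_trans (card_union_le _ _) ?_)
  refine le_trans (add_le_add card_image_le card_image_le) ?_
  simp

lemma hd (d t : ℕ) : ((edges (completeBipartiteGraph (Fin 2) (Fin d) ⊕g tP3 t)).filter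
    (Sum.inl (Sum.inl 0) ∈ ·)).card = d := by
  have : (edges (completeBipartiteGraph (Fin 2) (Fin d) ⊕g tP3 t)).filter
      (Sum.inl (Sum.inl 0) ∈ ·) =
      univ.image (fun p : Fin d => s(Sum.inl (Sum.inl 0), Sum.inl (Sum.inr p))) := by
    ext e
    constructor
    · intro he
      obtain ⟨h1, h2⟩ := mem_filter.mp he
      obtain ⟨b, rfl⟩ := Sym2.mem_iff_exists.mp h2
      have hab : (completeBipartiteGraph (Fin 2) (Fin d) ⊕g tP3 t).Adj
          (Sum.inl (Sum.inl 0)) b := by simpa [edges] using h1
      rcases b with (b | b) | b <;> simp at hab ⊢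
    · intro he
      obtain ⟨p, -, rfl⟩ := mem_image.mp he
      simp [edges]
  rw [this, card_image_of_injective]
  · simp
  · intro a b h
    simpa using h

lemma notAM (d t N : ℕ) (hN : 2 + d + t * 3 = N + 1)
    (h : 2 * ((2 * d + t * 2) * ((2 * d + t * 2) + 1)) + N + d < N * N + d * d) :
    ¬ Antimagic (completeBipartiteGraph (Fin 2) (Fin d) ⊕g tP3 t) := by
  intro h'
  have h1 := key _ h' (Sum.inl (Sum.inl 0)) d N
    ((congrArg Finset.card (Finset.filter_congr_decidable _ _ _)).trans (hd d t))
    (by rw [← hN]; simp)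
  have h2 := hM d t
  have h3 := Nat.mul_le_mul h2 (Nat.add_le_add_right h2 1)
  omega

theorem result : ∃ (V : Type) (_ : Fintype V) (G : SimpleGraph V),
    (∀ v, ∃ w, G.Adj v w) ∧ comps G 2 = 0 ∧ 0 ≤ beta G ∧
      ∃ t : ℕ, (t : ℤ) ≤ beta G ∧ ¬ Antimagic (G ⊕g tP3 t) := by
  have hb : ((2120 : ℕ) : ℤ) ≤ beta K := by
    have hs : (1.414 : ℝ) ≤ √2 := Real.le_sqrt_of_sq_le (by norm_num)
    rw [beta, Int.le_floor, internal_eq K degK, edgesK, compsK 3 (by norm_num)]
    simp only [Fintype.card_sum, Fintype.card_fin, le_min_iff]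
    constructor
    · push_cast
      linarith
    · norm_num
  refine ⟨Fin 2 ⊕ Fin 200, inferInstance, K, ?_, compsK 2 (by norm_num),
    le_trans (Int.natCast_nonneg _) hb, 2120, hb, notAM 200 2120 6561 (by norm_num) (by norm_num)⟩
  rintro (v | v)
  · exact ⟨Sum.inr 0, by simp⟩
  · exact ⟨Sum.inl 0, by simp⟩

end Pool.Agent.Results.MP_f5b38d_co.Q1
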